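import Pool.Agent.R194.RS.Final

/-!
# The rigid synchrony conjecture, with local-in-time `C^r` rigidity

For every network, every admissible `C¹` vector field `f` and every nondegenerate (in particular,
every hyperbolic) periodic orbit `x` of `f`, every rigid synchrony pattern of `x` is balanced. The
rigidity that is used is much weaker than the one of the conjecture: the equality of the states of
two nodes has to persist only for perturbations of `f` that are small together with their
derivatives up to an arbitrary order `r`, and only on an arbitrary open set `J` of times meeting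
`(0, T)` (`r`, `J` and the size of the perturbations may depend on the pair of nodes).
Moreover the statement holds for pairs of nodes and not only for the whole pattern: the locally
rigid pairs are contained in a balanced relation all of whose pairs are synchronous on `x`.

The definitions `Network`, `InputIso`, `Ph`, `st`, `Admissible` are in
`Pool/Agent/H848R3/RI/Net.lean`, `SmAdm` is in `Pool/Agent/H848R3/RI/Bump.lean`, `IsFund` is in
`Pool/Agent/H848R3/RI/Lin.lean`, `PeriodicOrbit` and `Hyperbolic` are in
`Pool/Agent/H848R3/RI/Hyp.lean`, `Nondegenerate` is in `Pool/Agent/H324/RP/Final.lean`, and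
`Balanced`, `Synchronous`, `LocallyRigid` are in `Pool/Agent/R194/RS/Final.lean`.
-/

set_option autoImplicit false

open Pool.Agent.H848R3.RI Pool.Agent.H324.RP Pool.Agent.R194.RS

namespace Pool.Agent.Results.MP_e1010f_an.LocalRigidSynchrony

/-- The synchrony pattern of the `T`-periodic orbit `x` of `f` is rigid, in the sense of the
problem: there is `δ > 0` such that for every smooth admissible `h` with `‖h‖ < δ`, `‖Dh‖ < δ`
everywhere, all nodes that are synchronous on `x` are synchronous on the nearby periodic orbit of
`f + h` (every periodic orbit `x'` of `f + h` of period `T'`, `|T' - T| < δ`, that is `δ`-close to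
`x` on `[0, T]`). -/
def RigidPattern {N : Network} {V : N.SType → Type} [∀ τ, NormedAddCommGroup (V τ)]
    [∀ τ, NormedSpace ℝ (V τ)] (f : Ph N V → Ph N V) (x : ℝ → Ph N V) (T : ℝ) : Prop :=
  ∃ δ > 0, ∀ h : Ph N V → Ph N V, SmAdm h → (∀ z, ‖h z‖ < δ ∧ ‖fderiv ℝ h z‖ < δ) →
    ∀ (x' : ℝ → Ph N V) (T' : ℝ), PeriodicOrbit (fun z => f z + h z) x' T' → |T' - T| < δ →
      (∀ t ∈ Set.Icc 0 T, ‖x' t - x t‖ < δ) →
        ∀ c d, Synchronous x c d → Synchronous x' c d

/-- Hyperbolic periodic orbits are nondegenerate. -/
lemma nondegenerate_of_hyperbolic {E : Type} [NormedAddCommGroup E] [NormedSpace ℝ E]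
    [FiniteDimensional ℝ E] {f : E → E} {x : ℝ → E} {T : ℝ} (h : Hyperbolic f x T) :
    Nondegenerate f x T := by
  obtain ⟨Φ, h1, h2, -⟩ := h
  exact ⟨Φ, h1, h2⟩

/-- **Local rigidity of synchrony implies balance.** Let `x` be a nondegenerate `T`-periodic orbit
of an admissible `C¹` field `f`.
(A) There is a balanced equivalence relation `R` on the nodes that contains all pairs of nodes
whose synchrony is locally rigid (persists, on some open set of times meeting `(0, T)`, under all
`C^r`-small smooth admissible perturbations, for some `r`), and all pairs in `R` are synchronous on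
`x` for all times.
(B) If the synchrony of any two synchronous nodes of `x` is locally rigid, then the synchrony
pattern of `x` is balanced.
(C) If the synchrony pattern of `x` is rigid in the sense of the problem (`C¹`-small perturbations,
all times), then it is balanced: the rigid synchrony conjecture. -/
theorem result (N : Network) (V : N.SType → Type) [∀ τ, NormedAddCommGroup (V τ)]
    [∀ τ, NormedSpace ℝ (V τ)] [∀ τ, FiniteDimensional ℝ (V τ)] [∀ τ, Nontrivial (V τ)]
    (f : Ph N V → Ph N V) (hf : Admissible f) (x : ℝ → Ph N V) (T : ℝ)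
    (hx : PeriodicOrbit f x T) (hh : Nondegenerate f x T) :
    (∃ R : N.Node → N.Node → Prop, Balanced N R ∧ (∀ c d, LocallyRigid f x T c d → R c d) ∧
      (∀ c d, R c d → Synchronous x c d)) ∧
    ((∀ c d, Synchronous x c d → LocallyRigid f x T c d) → Balanced N (Synchronous x)) ∧
    (RigidPattern f x T → Balanced N (Synchronous x)) := by
  have hp : PerOrb f x T := hx.perOrb hf.smooth
  have hnd := hh.nDeg hf.smooth hp
  have hA : ∃ R : N.Node → N.Node → Prop, Balanced N R ∧
      (∀ c d, LocallyRigid f x T c d → R c d) ∧ (∀ c d, R c d → Synchronous x c d) := by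
    refine ⟨joinRel N (fun R => ∀ a b, R a b → Synchronous x a b), joinRel_balanced N _,
      fun c d h => ?_, fun c d h => joinRel_sync h⟩
    obtain ⟨R, h1, h2, h3⟩ := pair_rel hf hp hnd c d h
    exact Relation.EqvGen.rel _ _ ⟨R, h1, h2, h3⟩
  have hB : (∀ c d, Synchronous x c d → LocallyRigid f x T c d) → Balanced N (Synchronous x) := by
    intro h
    obtain ⟨R, h1, h2, h3⟩ := hA
    have h4 : R = Synchronous x := by
      funext c d
      exact propext ⟨h3 c d, fun h5 => h2 c d (h c d h5)⟩
    rw [← h4]
    exact h1
  refine ⟨hA, hB, fun hr => hB fun c d hcd => ?_⟩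
  obtain ⟨δ, hδ, h1⟩ := hr
  refine ⟨1, Set.univ, isOpen_univ, ?_, δ, hδ, fun h h2 h3 x' T' h4 h5 h6 t _ => ?_⟩
  · rw [Set.univ_inter]
    exact Set.nonempty_Ioo.2 hx.pos
  · refine h1 h h2 (fun z => ⟨?_, ?_⟩) x' T' h4 h5 h6 c d hcd t
    · have := h3 0 (by norm_num) z
      rwa [norm_iteratedFDeriv_zero] at this
    · have := h3 1 le_rfl z
      rwa [norm_iteratedFDeriv_one] at this

end Pool.Agent.Results.MP_e1010f_an.LocalRigidSynchrony
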